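import Pool.Agent.helper94.EU.SpecII
import Pool.Agent.helper36.BP.SpecE

set_option autoImplicit false

open Finset

noncomputable section

namespace Pool.Agent.EU

open Pool.Agent.FI Pool.Agent.FJ

open MeasureTheory

open scoped Classical in
/-- the number of elements with `y < yy z ≤ y + h` -/
private def GTR_w (N : ℕ) (h y : ℝ) : ℝ := ∑ z ∈ ZD N, if y < yy z ∧ yy z ≤ y + h then (1 : ℝ) else 0

private theorem GTR_ind (z : ℤ × ℤ) (h : ℝ) (f : ℝ) :
    (fun y : ℝ => if y < yy z ∧ yy z ≤ y + h then f else 0) = Set.indicator (Set.Ico (yy z - h) (yy z)) (fun _ => f) := by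
  funext y
  rw [Set.indicator_apply]
  refine if_congr ?_ rfl rfl
  rw [Set.mem_Ico]
  constructor
  · rintro ⟨h1, h2⟩
    exact ⟨by linarith, h1⟩
  · rintro ⟨h1, h2⟩
    exact ⟨h2, by linarith⟩

private theorem GTR_int1 (z : ℤ × ℤ) (h : ℝ) (hh : 0 < h) :
    Integrable (fun y : ℝ => if y < yy z ∧ yy z ≤ y + h then (1 : ℝ) else 0) ∧
      ∫ y : ℝ, (if y < yy z ∧ yy z ≤ y + h then (1 : ℝ) else 0) = h := by
  rw [GTR_ind]
  constructor
  · rw [integrable_indicator_iff measurableSet_Ico]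
    exact integrableOn_const (by simp)
  · rw [integral_indicator measurableSet_Ico, setIntegral_const, measureReal_def, Real.volume_Ico, ENNReal.toReal_ofReal (by linarith)]
    simp

theorem GTR (hSCW : Pool.Agent.BP.SCW_stmt) (hFFC : FFC_stmt) : GTR_stmt := by
  classical
  obtain ⟨C, hC, hS⟩ := hSCW
  refine ⟨100 * C, by positivity, ?_⟩
  intro N q c sg β Mβ h t hN hβ hh
  have hM0 : 0 ≤ Mβ := (abs_nonneg _).trans (hβ (0, 0))
  have hNr : (1 : ℝ) ≤ N := by exact_mod_cast hN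
  have hN0 : (0 : ℝ) < N := by linarith
  -- the counting function
  have hwint : Integrable (GTR_w N h) := by
    unfold GTR_w
    exact integrable_finsetSum _ fun z _ => (GTR_int1 z h hh).1
  have hwval : ∫ y : ℝ, GTR_w N h y ≤ 50 * N * h := by
    unfold GTR_w
    rw [integral_finsetSum _ fun z _ => (GTR_int1 z h hh).1]
    rw [Finset.sum_congr rfl fun z _ => (GTR_int1 z h hh).2, Finset.sum_const, nsmul_eq_mul]
    refine mul_le_mul_of_nonneg_right ?_ hh.le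
    have h1 : (ZD N).card ≤ (FF (2 * N)).card := by
      unfold ZD
      exact Finset.card_filter_le _ _
    have h2 := (hFFC (2 * N)).1
    have h3 : ((ZD N).card : ℝ) ≤ ((FF (2 * N)).card : ℝ) := by exact_mod_cast h1
    push_cast at h2
    linarith
  have hw0 : ∀ y, 0 ≤ GTR_w N h y := by
    intro y
    unfold GTR_w
    exact Finset.sum_nonneg fun z _ => by split_ifs <;> norm_num
  have hwle : ∀ y, GTR_w N h y ≤ 2 * C * (N * h + √(N : ℝ)) := by
    intro y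
    have h1 : GTR_w N h y = ((#{z ∈ ZD N | y < yy z ∧ yy z ≤ y + h} : ℕ) : ℝ) := by
      unfold GTR_w
      rw [Finset.sum_ite, Finset.sum_const_zero, add_zero, Finset.sum_const, nsmul_eq_mul, mul_one]
    have h2 : #{z ∈ ZD N | y < yy z ∧ yy z ≤ y + h} ≤ #{z ∈ Pool.Agent.BP.FE (2 * N) | |yy z - (y + h / 2)| ≤ h / 2} := by
      refine Finset.card_le_card fun z hz => ?_
      rw [Finset.mem_filter] at hz ⊢
      obtain ⟨hz1, hz2, hz3⟩ := hz
      refine ⟨?_, ?_⟩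
      · unfold ZD at hz1
        rw [Finset.mem_filter] at hz1
        have h3 := hz1.1
        unfold FF at h3
        rw [Finset.mem_filter, Finset.mem_product, Finset.mem_Icc, Finset.mem_Icc] at h3
        unfold Pool.Agent.BP.FE
        rw [Finset.mem_filter]
        refine ⟨?_, h3.2.1.2, h3.2.2⟩
        unfold Bx
        rw [Finset.mem_product, Finset.mem_Icc, Finset.mem_Icc]
        have h4 := h3.1
        push_cast at h4 ⊢
        exact h4
      · rw [abs_le]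
        constructor <;> linarith
    have h3 := hS (2 * N) (y + h / 2) (h / 2) (by omega) (by linarith)
    have h4 : ((#{z ∈ ZD N | y < yy z ∧ yy z ≤ y + h} : ℕ) : ℝ) ≤
        ((#{z ∈ Pool.Agent.BP.FE (2 * N) | |yy z - (y + h / 2)| ≤ h / 2} : ℕ) : ℝ) := by exact_mod_cast h2
    rw [h1]
    refine h4.trans (h3.trans ?_)
    have h5 : √((2 * N : ℕ) : ℝ) ≤ 2 * √(N : ℝ) := by
      rw [Real.sqrt_le_left (by positivity), mul_pow, Real.sq_sqrt hN0.le]
      push_cast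
      linarith
    have h6 : h / 2 * ((2 * N : ℕ) : ℝ) + √((2 * N : ℕ) : ℝ) ≤ 2 * (N * h + √(N : ℝ)) := by
      have h7 : 0 ≤ (N : ℝ) * h := by positivity
      push_cast at h5 ⊢
      nlinarith
    calc C * (h / 2 * ((2 * N : ℕ) : ℝ) + √((2 * N : ℕ) : ℝ)) ≤ C * (2 * (N * h + √(N : ℝ))) :=
          mul_le_mul_of_nonneg_left h6 hC.le
      _ = _ := by ring
  -- the norm
  have hZ : ∀ y, ‖ZW N q c sg β y h t‖ ≤ Mβ / √(N : ℝ) * GTR_w N h y := by
    intro y
    unfold ZW GTR_w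
    rw [Finset.mul_sum]
    refine (norm_sum_le _ _).trans ?_
    rw [Finset.sum_filter]
    refine Finset.sum_le_sum fun z hz => ?_
    have hnn : (N : ℝ) < nn z := by
      unfold ZD at hz
      rw [Finset.mem_filter] at hz
      exact_mod_cast hz.2.1
    have hnn0 : (0 : ℝ) < nn z := by linarith
    by_cases hc : ((q : ℤ) ∣ z.1 - c.1 ∧ (q : ℤ) ∣ z.2 - c.2 ∧ (N8 z).sign = sg ∧ y < yy z ∧ yy z ≤ y + h)
    · rw [if_pos hc, if_pos hc.2.2.2, mul_one, norm_mul]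
      have h1 : ‖((β z : ℝ) : ℂ)‖ ≤ Mβ := by
        rw [Complex.norm_real]
        exact hβ z
      have h2 : ‖((nn z : ℕ) : ℂ) ^ (-(1 / 2 : ℂ) + (t : ℂ) * Complex.I)‖ ≤ 1 / √(N : ℝ) := by
        have h3 : (((nn z : ℕ) : ℝ) : ℂ) = ((nn z : ℕ) : ℂ) := by norm_cast
        rw [← h3, Complex.norm_cpow_eq_rpow_re_of_pos hnn0]
        have h4 : (-(1 / 2 : ℂ) + (t : ℂ) * Complex.I).re = -(1 / 2 : ℝ) := by
          simp
        rw [h4, Real.rpow_neg hnn0.le, ← Real.sqrt_eq_rpow, one_div]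
        exact inv_anti₀ (Real.sqrt_pos.2 hN0) (Real.sqrt_le_sqrt hnn.le)
      calc ‖((β z : ℝ) : ℂ)‖ * ‖((nn z : ℕ) : ℂ) ^ (-(1 / 2 : ℂ) + (t : ℂ) * Complex.I)‖ ≤ Mβ * (1 / √(N : ℝ)) :=
            mul_le_mul h1 h2 (norm_nonneg _) hM0
        _ = Mβ / √(N : ℝ) := by ring
    · rw [if_neg hc]
      split_ifs
      · positivity
      · simp
  have hZ2 : ∀ y, ‖ZW N q c sg β y h t‖ ^ 2 ≤ Mβ ^ 2 / N * (2 * C * (N * h + √(N : ℝ))) * GTR_w N h y := by
    intro y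
    have h1 := pow_le_pow_left₀ (norm_nonneg _) (hZ y) 2
    refine h1.trans ?_
    have h2 : (Mβ / √(N : ℝ) * GTR_w N h y) ^ 2 = Mβ ^ 2 / N * (GTR_w N h y * GTR_w N h y) := by
      rw [mul_pow, div_pow, Real.sq_sqrt hN0.le]
      ring
    rw [h2, mul_assoc (Mβ ^ 2 / N)]
    exact mul_le_mul_of_nonneg_left (mul_le_mul_of_nonneg_right (hwle y) (hw0 y)) (by positivity)
  have hmeas : Measurable (fun y : ℝ => ZW N q c sg β y h t) := by
    unfold ZW
    have h1 : (fun y : ℝ => ∑ z ∈ ZD N with (q : ℤ) ∣ z.1 - c.1 ∧ (q : ℤ) ∣ z.2 - c.2 ∧ (N8 z).sign = sg ∧ y < yy z ∧ yy z ≤ y + h,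
        (β z : ℂ) * ((nn z : ℕ) : ℂ) ^ (-(1 / 2 : ℂ) + (t : ℂ) * Complex.I)) =
        fun y : ℝ => ∑ z ∈ ZD N, (Set.indicator {y : ℝ | (q : ℤ) ∣ z.1 - c.1 ∧ (q : ℤ) ∣ z.2 - c.2 ∧ (N8 z).sign = sg ∧ y < yy z ∧ yy z ≤ y + h}
          (fun _ => (β z : ℂ) * ((nn z : ℕ) : ℂ) ^ (-(1 / 2 : ℂ) + (t : ℂ) * Complex.I))) y := by
      funext y
      rw [Finset.sum_filter]
      refine Finset.sum_congr rfl fun z _ => ?_
      rw [Set.indicator_apply]
      rfl
    rw [h1]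
    refine Finset.measurable_sum _ fun z _ => ?_
    refine Measurable.indicator measurable_const ?_
    have h2 : {y : ℝ | (q : ℤ) ∣ z.1 - c.1 ∧ (q : ℤ) ∣ z.2 - c.2 ∧ (N8 z).sign = sg ∧ y < yy z ∧ yy z ≤ y + h} =
        {_y : ℝ | (q : ℤ) ∣ z.1 - c.1 ∧ (q : ℤ) ∣ z.2 - c.2 ∧ (N8 z).sign = sg} ∩ Set.Ico (yy z - h) (yy z) := by
      ext y
      simp only [Set.mem_ofPred_eq, Set.mem_inter_iff, Set.mem_Ico]
      constructor
      · rintro ⟨h1, h2, h3, h4, h5⟩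
        exact ⟨⟨h1, h2, h3⟩, by linarith, h4⟩
      · rintro ⟨⟨h1, h2, h3⟩, h4, h5⟩
        exact ⟨h1, h2, h3, h5, by linarith⟩
    rw [h2]
    exact (MeasurableSet.const _).inter measurableSet_Ico
  have hI : Integrable (fun y : ℝ => ‖ZW N q c sg β y h t‖ ^ 2) := by
    refine Integrable.mono' (hwint.const_mul (Mβ ^ 2 / N * (2 * C * (N * h + √(N : ℝ))))) (hmeas.norm.pow_const 2).aestronglyMeasurable ?_
    refine Filter.Eventually.of_forall fun y => ?_
    rw [Real.norm_of_nonneg (by positivity)]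
    exact hZ2 y
  refine ⟨hI, ?_⟩
  calc ∫ y : ℝ, ‖ZW N q c sg β y h t‖ ^ 2
      ≤ ∫ y : ℝ, Mβ ^ 2 / N * (2 * C * (N * h + √(N : ℝ))) * GTR_w N h y :=
        integral_mono hI (hwint.const_mul _) hZ2
    _ = Mβ ^ 2 / N * (2 * C * (N * h + √(N : ℝ))) * ∫ y : ℝ, GTR_w N h y := integral_const_mul _ _
    _ ≤ Mβ ^ 2 / N * (2 * C * (N * h + √(N : ℝ))) * (50 * N * h) := mul_le_mul_of_nonneg_left hwval (by positivity)
    _ = 100 * C * (Mβ ^ 2 * (h * (N * h + √(N : ℝ)))) := by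
        field_simp
        ring

end Pool.Agent.EU
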