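import Pool.Agent.helper52.EU.SpecK

set_option autoImplicit false

open Finset

namespace Pool.Agent.EU

open Pool.Agent.FI Pool.Agent.HK Pool.Agent.BP Pool.Agent.YB
open Pool.Agent.CH (nit rgh)

theorem PR3_pos {u : ℕ} {z : ℤ × ℤ} (h : z ∈ FF u) : nn z ≠ 0 := by
  classical
  unfold FF at h
  rw [Finset.mem_filter] at h
  have h1 : z.1 % 2 = 1 := h.2.1.1
  intro h0
  have h2 : N8 z = 0 := Int.natAbs_eq_zero.1 h0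
  unfold N8 at h2
  obtain ⟨k, hk⟩ : ∃ k, z.1 = 2 * k + 1 := ⟨z.1 / 2, by omega⟩
  rw [hk] at h2
  have h3 : 2 * (2 * (k ^ 2 + k) - 4 * z.2 ^ 2) + 1 = 0 := by linarith
  omega

theorem PR3 (hPR2 : PR2_stmt) : PR3_stmt := by
  classical
  intro M₁ M₂ M₃ F G hM₁ hM₂ hM₃ hG hF
  have hb : ∀ z₃ ∈ FF M₃, ∃ b : ℤ × ℤ → ℂ, (∀ v, ‖b v‖ ≤ (#(nn v).divisors : ℝ) ^ 3 * G (nn v * nn z₃)) ∧
      ∀ Ψ : ℤ × ℤ → ℂ, MU Ψ → ∑ z ∈ FF M₁, ∑ w ∈ FF M₂, F z w z₃ * (Ψ z * Ψ w) = ∑ v ∈ FF (M₁ * M₂), b v * Ψ v := by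
    intro z₃ hz₃
    obtain ⟨b, h1, -, h3⟩ := hPR2 M₁ M₂ (fun z w => F z w z₃) (fun n => G (n * nn z₃)) hM₁ hM₂ (fun n => hG _)
      (fun z hz w hw => hF z hz w hw z₃ hz₃)
    exact ⟨b, h1, h3⟩
  choose! b hb1 hb2 using hb
  obtain ⟨c, hc1, -, hc2⟩ := hPR2 (M₁ * M₂) M₃ (fun v z₃ => b z₃ v) (fun n => (#n.divisors : ℝ) ^ 3 * G n)
    (Nat.one_le_iff_ne_zero.2 (by positivity)) hM₃ (fun n => mul_nonneg (by positivity) (hG n)) (by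
      intro v hv z₃ hz₃
      refine (hb1 z₃ hz₃ v).trans (mul_le_mul_of_nonneg_right ?_ (hG _))
      refine pow_le_pow_left₀ (by positivity) ?_ 3
      have h0 : nn v * nn z₃ ≠ 0 := mul_ne_zero (PR3_pos hv) (PR3_pos hz₃)
      exact_mod_cast Finset.card_le_card (Nat.divisors_subset_of_dvd h0 (Nat.dvd_mul_right _ _)))
  refine ⟨c, fun v => ?_, fun Ψ hΨ => ?_⟩
  · refine (hc1 v).trans (le_of_eq ?_)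
    ring
  · rw [← hc2 Ψ hΨ]
    have h1 : ∑ z₁ ∈ FF M₁, ∑ z₂ ∈ FF M₂, ∑ z₃ ∈ FF M₃, F z₁ z₂ z₃ * (Ψ z₁ * Ψ z₂ * Ψ z₃) =
        ∑ z₃ ∈ FF M₃, (∑ z₁ ∈ FF M₁, ∑ z₂ ∈ FF M₂, F z₁ z₂ z₃ * (Ψ z₁ * Ψ z₂)) * Ψ z₃ := by
      have h2 : ∀ z₁ ∈ FF M₁, ∑ z₂ ∈ FF M₂, ∑ z₃ ∈ FF M₃, F z₁ z₂ z₃ * (Ψ z₁ * Ψ z₂ * Ψ z₃) =
          ∑ z₃ ∈ FF M₃, ∑ z₂ ∈ FF M₂, F z₁ z₂ z₃ * (Ψ z₁ * Ψ z₂ * Ψ z₃) := fun z₁ _ => Finset.sum_comm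
      rw [Finset.sum_congr rfl h2, Finset.sum_comm]
      refine Finset.sum_congr rfl fun z₃ _ => ?_
      rw [Finset.sum_mul]
      refine Finset.sum_congr rfl fun z₁ _ => ?_
      rw [Finset.sum_mul]
      exact Finset.sum_congr rfl fun z₂ _ => by ring
    rw [h1]
    have h3 : ∑ z₃ ∈ FF M₃, (∑ z₁ ∈ FF M₁, ∑ z₂ ∈ FF M₂, F z₁ z₂ z₃ * (Ψ z₁ * Ψ z₂)) * Ψ z₃ =
        ∑ z₃ ∈ FF M₃, ∑ v ∈ FF (M₁ * M₂), b z₃ v * (Ψ v * Ψ z₃) := by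
      refine Finset.sum_congr rfl fun z₃ hz₃ => ?_
      rw [hb2 z₃ hz₃ Ψ hΨ, Finset.sum_mul]
      exact Finset.sum_congr rfl fun v _ => by ring
    rw [h3, Finset.sum_comm]

end Pool.Agent.EU
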