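import Pool.Agent.helper52.EU.SpecI

set_option autoImplicit false

open Finset

noncomputable section

namespace Pool.Agent.EU

open Pool.Agent.FI Pool.Agent.FJ

private theorem PTI_div {L : ℝ} (hL : 1 ≤ L) {B a b : ℕ} (h : a + (B + 1) ≤ b) :
    L ^ a / L ^ b ≤ 1 / L ^ (B + 1) := by
  have h0 : 0 < L := by linarith
  rw [div_le_div_iff₀ (by positivity) (by positivity), one_mul, ← pow_add]
  exact pow_le_pow_right₀ hL h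

private theorem PTI_V4 (x η : ℝ) (hx : 1 ≤ x) : (x ^ (η / 4)) ^ 4 = x ^ η := by
  rw [← Real.rpow_natCast, ← Real.rpow_mul (by linarith)]
  congr 1
  push_cast
  ring

private theorem PTI_c (x A η : ℝ) (hx : 1 ≤ x) (hA : x ^ (2 / 3 + η) ≤ A) : x ^ 2 * (x ^ η) ^ 3 ≤ A ^ 3 := by
  have hx0 : 0 < x := by linarith
  have h1 : (x ^ (2 / 3 + η)) ^ 3 = x ^ 2 * (x ^ η) ^ 3 := by
    rw [← Real.rpow_natCast, ← Real.rpow_mul hx0.le, ← Real.rpow_natCast x 2, ← Real.rpow_natCast (x ^ η) 3,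
      ← Real.rpow_mul hx0.le, ← Real.rpow_add hx0]
    congr 1
    push_cast
    ring
  rw [← h1]
  exact pow_le_pow_left₀ (Real.rpow_nonneg hx0.le _) hA 3

private theorem PTI_d (x A K c η : ℝ) (hx : 1 ≤ x) (hK : 0 ≤ K) (hA : x ^ (2 / 3 + η) ≤ A) (hKA : K * A ^ 2 ≤ c * x ^ 2)
    (hc : c ≤ x ^ η) : K ≤ x ^ (2 / 3 - η) := by
  have hx0 : 0 < x := by linarith
  have h1 : (x ^ (2 / 3 + η)) ^ 2 = x ^ (4 / 3 + 2 * η) := by
    rw [← Real.rpow_natCast, ← Real.rpow_mul hx0.le]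
    congr 1
    push_cast
    ring
  have h2 : x ^ (4 / 3 + 2 * η) ≤ A ^ 2 := by
    rw [← h1]
    exact pow_le_pow_left₀ (Real.rpow_nonneg hx0.le _) hA 2
  have h3 : K * x ^ (4 / 3 + 2 * η) ≤ x ^ η * x ^ 2 := by
    calc K * x ^ (4 / 3 + 2 * η) ≤ K * A ^ 2 := mul_le_mul_of_nonneg_left h2 hK
      _ ≤ c * x ^ 2 := hKA
      _ ≤ x ^ η * x ^ 2 := mul_le_mul_of_nonneg_right hc (by positivity)
  have h4 : x ^ η * x ^ 2 = x ^ (2 / 3 - η) * x ^ (4 / 3 + 2 * η) := by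
    rw [← Real.rpow_natCast x 2, ← Real.rpow_add hx0, ← Real.rpow_add hx0]
    congr 1
    push_cast
    ring
  rw [h4] at h3
  exact le_of_mul_le_mul_right h3 (Real.rpow_pos_of_pos hx0 _)

private theorem PTI_p1 (N A x s L P V K₁ K₃ Z LE : ℝ) (hN : 0 < N) (hA : 0 < A) (hx : 0 < x) (hL : 1 ≤ L) (hP : 0 < P)
    (hV : 0 < V) (hLE : 0 < LE) (hs1 : 1 ≤ s) (hss : s * s = N) (ha : x * V ≤ A * s) (hb : s * V ≤ A)
    (hK₁ : P ≤ K₁) (hK₃ : P ≤ K₃) (hZ : LE ≤ Z) :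
    N * A ^ 2 / K₁ + x * A + (1 + L) * (N * A ^ 2 / Z + x * A * s + N * s * A) + N * A * (A / K₃ + s) ≤
      (N * A ^ 2) * (2 / P + 2 / V + 2 * L * (1 / LE + 2 / V)) := by
  have hT : 0 < N * A ^ 2 := by positivity
  have hs0 : 0 < s := by linarith
  have p1 : N * A ^ 2 / K₁ ≤ N * A ^ 2 / P := div_le_div_of_nonneg_left hT.le hP hK₁
  have p1' : N * A ^ 2 / K₃ ≤ N * A ^ 2 / P := div_le_div_of_nonneg_left hT.le hP hK₃
  have p3 : N * A ^ 2 / Z ≤ N * A ^ 2 / LE := div_le_div_of_nonneg_left hT.le hLE hZ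
  have p2 : x * A * s ≤ N * A ^ 2 / V := by
    rw [le_div_iff₀ hV]
    calc x * A * s * V = (x * V) * (A * s) := by ring
      _ ≤ (A * s) * (A * s) := mul_le_mul_of_nonneg_right ha (by positivity)
      _ = N * A ^ 2 := by rw [← hss]; ring
  have p2' : x * A ≤ N * A ^ 2 / V := by
    refine le_trans ?_ p2
    exact le_mul_of_one_le_right (by positivity) hs1
  have p5 : N * s * A ≤ N * A ^ 2 / V := by
    rw [le_div_iff₀ hV]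
    calc N * s * A * V = N * A * (s * V) := by ring
      _ ≤ N * A * A := mul_le_mul_of_nonneg_left hb (by positivity)
      _ = N * A ^ 2 := by ring
  have p6 : N * A * (A / K₃ + s) = N * A ^ 2 / K₃ + N * s * A := by ring
  have p7 : (1 + L) * (N * A ^ 2 / Z + x * A * s + N * s * A) ≤ (2 * L) * (N * A ^ 2 / LE + N * A ^ 2 / V + N * A ^ 2 / V) := by
    refine mul_le_mul (by linarith) (by linarith) ?_ (by linarith)
    have hZ0 : 0 < Z := by linarith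
    positivity
  rw [p6]
  have p8 : (N * A ^ 2) * (2 / P + 2 / V + 2 * L * (1 / LE + 2 / V)) = N * A ^ 2 / P + N * A ^ 2 / V +
      (2 * L) * (N * A ^ 2 / LE + N * A ^ 2 / V + N * A ^ 2 / V) + (N * A ^ 2 / P + N * A ^ 2 / V) := by ring
  rw [p8]
  linarith

private theorem PTI_p3 (N A x L P V K K₃ R₁ lD D₁ C : ℝ) (hN : 0 < N) (hA : 0 < A) (hx : 0 < x) (hL : 1 ≤ L) (hP : 1 ≤ P)
    (hV : 1 ≤ V) (hK : 0 < K) (hK₃0 : 0 < K₃) (hC : 0 < C) (hK1 : x ^ 2 ≤ K * A ^ 2)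
    (hK2 : K * A ^ 2 ≤ 644 * P ^ 2 * x ^ 2) (hK₃ : K₃ ≤ 2 * P) (hR₁ : x * V ^ 2 / A ≤ R₁)
    (hlD : lD ≤ 4 * L) (hlD0 : 0 ≤ lD) (hNA : x ≤ N * A) (hD : D₁ ≤ 2 * N * A / x) (hD0 : 0 ≤ D₁) (hNV : N * V ^ 2 ≤ A ^ 2) :
    √(N * (N * A / x + 1) * (1 + A ^ 2 * K / x ^ 2)) *
      √(K₃ * (C * K₃ * lD * (x ^ 2 / (K * R₁) + D₁) * ((2 * L) ^ 4 * (x ^ 2 * (1 + L) ^ 3)))) ≤
      2816 * (1 + C) * (P ^ 2 * L ^ 4 * (N * A ^ 2) / V) := by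
  have hP0 : 0 < P := by linarith
  have hV0 : 0 < V := by linarith
  have hL0 : 0 < L := by linarith
  have hR₁0 : 0 < R₁ := lt_of_lt_of_le (by positivity) hR₁
  have hxK : x ^ 2 / K ≤ A ^ 2 := by
    rw [div_le_iff₀ hK]
    linarith
  have h1 : 1 + A ^ 2 * K / x ^ 2 ≤ 645 * P ^ 2 := by
    have h2 : A ^ 2 * K / x ^ 2 ≤ 644 * P ^ 2 := by
      rw [div_le_iff₀ (by positivity)]
      linarith
    have h3 : 1 ≤ P ^ 2 := one_le_pow₀ hP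
    linarith
  have h2 : N * A / x + 1 ≤ 2 * (N * A / x) := by
    have : 1 ≤ N * A / x := by
      rw [le_div_iff₀ hx]
      linarith
    linarith
  have hr1 : N * (N * A / x + 1) * (1 + A ^ 2 * K / x ^ 2) ≤ 1290 * P ^ 2 * (N ^ 2 * A / x) := by
    calc N * (N * A / x + 1) * (1 + A ^ 2 * K / x ^ 2) ≤ N * (2 * (N * A / x)) * (645 * P ^ 2) :=
          mul_le_mul (mul_le_mul_of_nonneg_left h2 hN.le) h1 (by positivity) (by positivity)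
      _ = _ := by ring
  have h3 : x ^ 2 / (K * R₁) ≤ A ^ 3 / (x * V ^ 2) := by
    have e : x ^ 2 / (K * R₁) = (x ^ 2 / K) * (1 / R₁) := by
      field_simp
    have e2 : A ^ 3 / (x * V ^ 2) = A ^ 2 * (1 / (x * V ^ 2 / A)) := by
      field_simp
    rw [e, e2]
    refine mul_le_mul hxK (one_div_le_one_div_of_le (by positivity) hR₁) (by positivity) (by positivity)
  have h4 : (1 + L) ^ 3 ≤ (2 * L) ^ 3 := pow_le_pow_left₀ (by linarith) (by linarith) 3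
  have h5 : K₃ * K₃ ≤ (2 * P) * (2 * P) := mul_le_mul hK₃ hK₃ hK₃0.le (by positivity)
  have hr2 : K₃ * (C * K₃ * lD * (x ^ 2 / (K * R₁) + D₁) * ((2 * L) ^ 4 * (x ^ 2 * (1 + L) ^ 3))) ≤
      2048 * C * P ^ 2 * L ^ 8 * x ^ 2 * (A ^ 3 / (x * V ^ 2) + 2 * N * A / x) := by
    calc K₃ * (C * K₃ * lD * (x ^ 2 / (K * R₁) + D₁) * ((2 * L) ^ 4 * (x ^ 2 * (1 + L) ^ 3)))
        = C * (K₃ * K₃) * lD * (x ^ 2 / (K * R₁) + D₁) * ((2 * L) ^ 4 * (x ^ 2 * (1 + L) ^ 3)) := by ring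
      _ ≤ C * ((2 * P) * (2 * P)) * (4 * L) * (A ^ 3 / (x * V ^ 2) + 2 * N * A / x) * ((2 * L) ^ 4 * (x ^ 2 * (2 * L) ^ 3)) := by
          refine mul_le_mul ?_ ?_ (by positivity) (by positivity)
          · refine mul_le_mul ?_ (by linarith) (by positivity) (by positivity)
            exact mul_le_mul (mul_le_mul_of_nonneg_left h5 hC.le) hlD hlD0 (by positivity)
          · refine mul_le_mul_of_nonneg_left ?_ (by positivity)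
            exact mul_le_mul_of_nonneg_left h4 (by positivity)
      _ = _ := by ring
  have hr1n : 0 ≤ N * (N * A / x + 1) * (1 + A ^ 2 * K / x ^ 2) := by positivity
  rw [← Real.sqrt_mul hr1n]
  refine Real.sqrt_le_iff.2 ⟨by positivity, ?_⟩
  have hr2n : 0 ≤ K₃ * (C * K₃ * lD * (x ^ 2 / (K * R₁) + D₁) * ((2 * L) ^ 4 * (x ^ 2 * (1 + L) ^ 3))) := by positivity
  refine (mul_le_mul hr1 hr2 hr2n (by positivity)).trans ?_
  have e : 1290 * P ^ 2 * (N ^ 2 * A / x) * (2048 * C * P ^ 2 * L ^ 8 * x ^ 2 * (A ^ 3 / (x * V ^ 2) + 2 * N * A / x)) =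
      2641920 * C * (P ^ 4 * L ^ 8) * (N ^ 2 * A ^ 4 / V ^ 2 + 2 * N ^ 3 * A ^ 2) := by
    field_simp
    ring
  rw [e]
  have h6 : N ^ 3 * A ^ 2 ≤ N ^ 2 * A ^ 4 / V ^ 2 := by
    rw [le_div_iff₀ (by positivity)]
    calc N ^ 3 * A ^ 2 * V ^ 2 = N ^ 2 * A ^ 2 * (N * V ^ 2) := by ring
      _ ≤ N ^ 2 * A ^ 2 * A ^ 2 := mul_le_mul_of_nonneg_left hNV (by positivity)
      _ = N ^ 2 * A ^ 4 := by ring
  have h7 : N ^ 2 * A ^ 4 / V ^ 2 + 2 * N ^ 3 * A ^ 2 ≤ 3 * (N ^ 2 * A ^ 4 / V ^ 2) := by linarith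
  calc 2641920 * C * (P ^ 4 * L ^ 8) * (N ^ 2 * A ^ 4 / V ^ 2 + 2 * N ^ 3 * A ^ 2)
      ≤ 2641920 * C * (P ^ 4 * L ^ 8) * (3 * (N ^ 2 * A ^ 4 / V ^ 2)) := mul_le_mul_of_nonneg_left h7 (by positivity)
    _ = 7925760 * C * (P ^ 2 * L ^ 4 * (N * A ^ 2) / V) ^ 2 := by
        field_simp
        ring
    _ ≤ (2816 * (1 + C)) ^ 2 * (P ^ 2 * L ^ 4 * (N * A ^ 2) / V) ^ 2 := by
        refine mul_le_mul_of_nonneg_right ?_ (by positivity)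
        nlinarith [sq_nonneg C]
    _ = _ := by ring

/-- the terms with the small conductors removed -/
private theorem PTI_p2 (N A x L V K₃ R₀ lD Lc LE₀ : ℝ) (hN : 0 < N) (hA : 0 < A) (hx : 0 < x) (hL : 1 ≤ L)
    (hV : 0 < V) (hLc : 0 < Lc) (hK₃ : Lc ≤ K₃) (hR₀0 : 0 ≤ R₀) (hR₀ : R₀ ≤ LE₀) (hlD : lD ≤ 4 * L) (hlD0 : 0 ≤ lD)
    (hxV : x * V ≤ A ^ 2) :
    (2 * L) ^ 2 * R₀ ^ 2 * lD * (N * A ^ 2 / K₃ + x * N) ≤ (N * A ^ 2) * (16 * L ^ 3 * LE₀ ^ 2 * (1 / Lc + 1 / V)) := by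
  have hT : 0 < N * A ^ 2 := by positivity
  have h1 : N * A ^ 2 / K₃ ≤ N * A ^ 2 / Lc := div_le_div_of_nonneg_left hT.le hLc hK₃
  have h2 : x * N ≤ N * A ^ 2 / V := by
    rw [le_div_iff₀ hV]
    calc x * N * V = N * (x * V) := by ring
      _ ≤ N * A ^ 2 := mul_le_mul_of_nonneg_left hxV hN.le
  have hK₃0 : 0 < K₃ := by linarith
  have h3 : R₀ ^ 2 ≤ LE₀ ^ 2 := pow_le_pow_left₀ hR₀0 hR₀ 2
  have h4 : (2 * L) ^ 2 * R₀ ^ 2 * lD ≤ (2 * L) ^ 2 * LE₀ ^ 2 * (4 * L) :=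
    mul_le_mul (mul_le_mul_of_nonneg_left h3 (by positivity)) hlD hlD0 (by positivity)
  calc (2 * L) ^ 2 * R₀ ^ 2 * lD * (N * A ^ 2 / K₃ + x * N)
      ≤ ((2 * L) ^ 2 * LE₀ ^ 2 * (4 * L)) * (N * A ^ 2 / Lc + N * A ^ 2 / V) :=
        mul_le_mul h4 (add_le_add h1 h2) (by positivity) (by positivity)
    _ = _ := by ring

/-- the medium conductors -/
private theorem PTI_p4 (N A x L V Q K R₀ R₁ lD Lb : ℝ) (hN : 0 < N) (hA : 0 < A) (hx : 0 < x) (hL : 1 ≤ L) (hQ : 1 ≤ Q)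
    (hV : 1 ≤ V) (hLb : 0 < Lb) (hK : 0 < K) (hK1 : x ^ 2 ≤ K * A ^ 2)
    (hK2 : K * A ^ 2 ≤ 322 * Q * x ^ 2) (hR₀a : Lb ≤ R₀) (hR₁0 : 0 ≤ R₁) (hR₁ : R₁ ≤ 2 * (x * V ^ 2 / A))
    (hlD : lD ≤ 4 * L) (hc : x ^ 2 * V ^ 12 ≤ A ^ 3) :
    (1 + A ^ 2 * K / x ^ 2) * N * (lD * ((x / (K * R₀) + R₁) * (x * (2 * L) ^ 2))) ≤
      (N * A ^ 2) * (16 * L ^ 3 * (2 / Lb + 646 * Q / V)) := by
  have hR₀ : 0 < R₀ := by linarith
  have hV0 : 0 < V := by linarith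
  have hL0 : 0 < L := by linarith
  have hQ0 : 0 < Q := by linarith
  have hxK : x ^ 2 / K ≤ A ^ 2 := by
    rw [div_le_iff₀ hK]
    linarith
  have h1 : 1 + A ^ 2 * K / x ^ 2 ≤ 323 * Q := by
    have h2 : A ^ 2 * K / x ^ 2 ≤ 322 * Q := by
      rw [div_le_iff₀ (by positivity)]
      linarith
    linarith
  have h0 : 0 < 1 + A ^ 2 * K / x ^ 2 := by positivity
  have h2 : (1 + A ^ 2 * K / x ^ 2) * (x ^ 2 / (K * R₀)) ≤ A ^ 2 * (2 / Lb) := by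
    have e : (1 + A ^ 2 * K / x ^ 2) * (x ^ 2 / (K * R₀)) = (x ^ 2 / K + A ^ 2) * (1 / R₀) := by
      field_simp
    rw [e]
    calc (x ^ 2 / K + A ^ 2) * (1 / R₀) ≤ (A ^ 2 + A ^ 2) * (1 / Lb) :=
          mul_le_mul (by linarith) (one_div_le_one_div_of_le hLb hR₀a) (by positivity) (by positivity)
      _ = _ := by ring
  have h3 : x * R₁ ≤ A ^ 2 * (2 / V) := by
    have h5 : x ^ 2 * V ^ 2 / A ≤ A ^ 2 / V := by
      rw [div_le_div_iff₀ hA hV0]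
      calc x ^ 2 * V ^ 2 * V = x ^ 2 * V ^ 3 := by ring
        _ ≤ x ^ 2 * V ^ 12 := mul_le_mul_of_nonneg_left (pow_le_pow_right₀ hV (by norm_num)) (by positivity)
        _ ≤ A ^ 3 := hc
        _ = A ^ 2 * A := by ring
    calc x * R₁ ≤ x * (2 * (x * V ^ 2 / A)) := mul_le_mul_of_nonneg_left hR₁ hx.le
      _ = 2 * (x ^ 2 * V ^ 2 / A) := by ring
      _ ≤ 2 * (A ^ 2 / V) := by linarith
      _ = A ^ 2 * (2 / V) := by ring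
  have h4 : (1 + A ^ 2 * K / x ^ 2) * (x * R₁) ≤ (323 * Q) * (A ^ 2 * (2 / V)) :=
    mul_le_mul h1 h3 (by positivity) (by positivity)
  have e1 : (1 + A ^ 2 * K / x ^ 2) * N * (lD * ((x / (K * R₀) + R₁) * (x * (2 * L) ^ 2))) =
      lD * ((4 * L ^ 2 * N) * ((1 + A ^ 2 * K / x ^ 2) * (x ^ 2 / (K * R₀)) + (1 + A ^ 2 * K / x ^ 2) * (x * R₁))) := by
    have e2 : x / (K * R₀) * x = x ^ 2 / (K * R₀) := by ring
    calc (1 + A ^ 2 * K / x ^ 2) * N * (lD * ((x / (K * R₀) + R₁) * (x * (2 * L) ^ 2)))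
        = lD * ((4 * L ^ 2 * N) * ((1 + A ^ 2 * K / x ^ 2) * (x / (K * R₀) * x) + (1 + A ^ 2 * K / x ^ 2) * (x * R₁))) := by ring
      _ = _ := by rw [e2]
  rw [e1]
  calc lD * ((4 * L ^ 2 * N) * ((1 + A ^ 2 * K / x ^ 2) * (x ^ 2 / (K * R₀)) + (1 + A ^ 2 * K / x ^ 2) * (x * R₁)))
      ≤ (4 * L) * ((4 * L ^ 2 * N) * (A ^ 2 * (2 / Lb) + (323 * Q) * (A ^ 2 * (2 / V)))) := by
        refine mul_le_mul hlD ?_ (by positivity) (by positivity)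
        exact mul_le_mul_of_nonneg_left (add_le_add h2 h4) (by positivity)
    _ = _ := by ring

/-- the final sum -/
private theorem PTI_end (L P₁ Lc Q P V T LE LE₀ C q : ℝ) (B c₃ E₀ E G : ℕ) (hc₃ : c₃ = 2 * E₀ + B + 40)
    (hE : E = B + 10) (hG : G = 2 * (c₃ + E₀) + B + 10) (hL : 1 ≤ L) (hP₁ : P₁ = L ^ (B + 30)) (hLc : Lc = L ^ c₃)
    (hQ : Q = L ^ (c₃ + E₀)) (hP : P = L ^ (c₃ + E₀)) (hLE : LE = L ^ E) (hLE₀ : LE₀ = L ^ E₀)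
    (hV : L ^ G ≤ V) (hT : 0 < T) (hC : 0 < C) (hq : q = 1 / L ^ (B + 1)) :
    C * (3 * L) ^ 2 * ((2 * L) ^ 2 * (T * (2 / P₁ + 2 / V + 2 * L * (1 / LE + 2 / V))) +
      T * (16 * L ^ 3 * LE₀ ^ 2 * (1 / Lc + 1 / V)) + T * (16 * L ^ 3 * (2 / P₁ + 646 * Q / V)) +
        2816 * (1 + 1) * (P ^ 2 * L ^ 4 * T / V)) ≤ C * 144648 * q * T := by
  have hL0 : 0 < L := by linarith
  have hV0 : 0 < V := lt_of_lt_of_le (by positivity) hV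
  have hVd : ∀ a : ℕ, a + (B + 1) ≤ G → L ^ a / V ≤ q := by
    intro a ha
    rw [hq]
    exact (div_le_div_of_nonneg_left (by positivity) (by positivity) hV).trans (PTI_div hL ha)
  have f1 : L ^ 4 / P₁ ≤ q := by rw [hP₁, hq]; exact PTI_div hL (by omega)
  have f1' : L ^ 5 / P₁ ≤ q := by rw [hP₁, hq]; exact PTI_div hL (by omega)
  have f2 : L ^ 4 / V ≤ q := hVd 4 (by omega)
  have f3 : L ^ 5 / LE ≤ q := by rw [hLE, hq]; exact PTI_div hL (by omega)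
  have f4 : L ^ 5 / V ≤ q := hVd 5 (by omega)
  have f5 : L ^ 5 * LE₀ ^ 2 / Lc ≤ q := by
    have e : L ^ 5 * LE₀ ^ 2 = L ^ (5 + E₀ * 2) := by rw [hLE₀, pow_add, pow_mul]
    rw [e, hLc, hq]
    exact PTI_div hL (by omega)
  have f6 : L ^ 5 * LE₀ ^ 2 / V ≤ q := by
    have e : L ^ 5 * LE₀ ^ 2 = L ^ (5 + E₀ * 2) := by rw [hLE₀, pow_add, pow_mul]
    rw [e]
    exact hVd _ (by omega)
  have f7 : L ^ 5 * Q / V ≤ q := by
    have e : L ^ 5 * Q = L ^ (5 + (c₃ + E₀)) := by rw [hQ]; ring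
    rw [e]
    exact hVd _ (by omega)
  have f8 : P ^ 2 * L ^ 6 / V ≤ q := by
    have e : P ^ 2 * L ^ 6 = L ^ ((c₃ + E₀) * 2 + 6) := by rw [hP]; ring
    rw [e]
    exact hVd _ (by omega)
  have e : C * (3 * L) ^ 2 * ((2 * L) ^ 2 * (T * (2 / P₁ + 2 / V + 2 * L * (1 / LE + 2 / V))) +
      T * (16 * L ^ 3 * LE₀ ^ 2 * (1 / Lc + 1 / V)) + T * (16 * L ^ 3 * (2 / P₁ + 646 * Q / V)) +
        2816 * (1 + 1) * (P ^ 2 * L ^ 4 * T / V)) =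
      C * T * (72 * (L ^ 4 / P₁) + 72 * (L ^ 4 / V) + 72 * (L ^ 5 / LE) + 144 * (L ^ 5 / V) +
        144 * (L ^ 5 * LE₀ ^ 2 / Lc) + 144 * (L ^ 5 * LE₀ ^ 2 / V) + 288 * (L ^ 5 / P₁) + 93024 * (L ^ 5 * Q / V) +
        50688 * (P ^ 2 * L ^ 6 / V)) := by ring
  rw [e]
  calc C * T * (72 * (L ^ 4 / P₁) + 72 * (L ^ 4 / V) + 72 * (L ^ 5 / LE) + 144 * (L ^ 5 / V) +
        144 * (L ^ 5 * LE₀ ^ 2 / Lc) + 144 * (L ^ 5 * LE₀ ^ 2 / V) + 288 * (L ^ 5 / P₁) + 93024 * (L ^ 5 * Q / V) +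
        50688 * (P ^ 2 * L ^ 6 / V))
      ≤ C * T * (144648 * q) := mul_le_mul_of_nonneg_left (by linarith) (by positivity)
    _ = _ := by ring

theorem PTI (hPTD : PTD_stmt) : PTI_stmt := by
  classical
  obtain ⟨C, hC, hD⟩ := hPTD
  intro η hη B E₀ hBE
  obtain ⟨c₃, hc₃⟩ : ∃ n : ℕ, n = 2 * E₀ + B + 40 := ⟨_, rfl⟩
  obtain ⟨E, hE⟩ : ∃ n : ℕ, n = B + 10 := ⟨_, rfl⟩
  obtain ⟨G, hG'⟩ : ∃ n : ℕ, n = 2 * (c₃ + E₀) + B + 10 := ⟨_, rfl⟩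
  have htend : Filter.Tendsto (fun x : ℕ => Real.log (x : ℝ)) Filter.atTop Filter.atTop :=
    Real.tendsto_log_atTop.comp tendsto_natCast_atTop_atTop
  have hlit : ∀ᶠ x : ℕ in Filter.atTop, Real.log (x : ℝ) ^ G ≤ (x : ℝ) ^ (η / 4) := by
    have h1 : (fun x : ℝ => Real.log x ^ G) =o[Filter.atTop] fun x : ℝ => x ^ (η / 4) := by
      have h3 := isLittleO_log_rpow_rpow_atTop (G : ℝ) (show (0 : ℝ) < η / 4 by linarith)
      have h4 : (fun x : ℝ => Real.log x ^ (G : ℝ)) = fun x : ℝ => Real.log x ^ G := by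
        funext x
        exact Real.rpow_natCast _ _
      rw [h4] at h3
      exact h3
    have h2 := h1.bound (show (0 : ℝ) < 1 by norm_num)
    have h3 : ∀ᶠ x : ℕ in Filter.atTop, ‖Real.log (x : ℝ) ^ G‖ ≤ 1 * ‖(x : ℝ) ^ (η / 4)‖ :=
      tendsto_natCast_atTop_atTop.eventually h2
    filter_upwards [h3, htend.eventually_ge_atTop 1] with x hx hx1
    rw [Real.norm_of_nonneg (by positivity), Real.norm_of_nonneg (by positivity)] at hx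
    linarith
  obtain ⟨x₀, hx₀⟩ := Filter.eventually_atTop.1 ((htend.eventually_ge_atTop (max (C * 144648) 2)).and
    (hlit.and (Filter.eventually_ge_atTop 2)))
  refine ⟨E, x₀, fun x hx Z lam hZ hlam om hom A N R K₁ R₀ hA1 hAx hN1 hN2 hR1 hR2 hK₁a hK₁b hR₀a hR₀b β hβ => ?_⟩
  obtain ⟨hLm, hLG, hx2⟩ := hx₀ x hx
  set L : ℝ := Real.log x with hL
  have hLQ : C * 144648 ≤ L := (le_max_left _ _).trans hLm
  have hL2 : 2 ≤ L := (le_max_right _ _).trans hLm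
  have hL1 : 1 ≤ L := by linarith
  have hL0 : 0 < L := by linarith
  have hx1 : 1 ≤ x := by omega
  have hx0 : (0 : ℝ) < x := by exact_mod_cast hx1
  have hxr1 : (1 : ℝ) ≤ x := by exact_mod_cast hx1
  have hpow : ∀ a b : ℕ, a ≤ b → L ^ a ≤ L ^ b := fun a b h => pow_le_pow_right₀ hL1 h
  have hp1 : ∀ a : ℕ, 1 ≤ L ^ a := fun a => one_le_pow₀ hL1
  obtain ⟨V, hVdef⟩ : ∃ V : ℝ, V = (x : ℝ) ^ (η / 4) := ⟨_, rfl⟩
  rw [← hVdef] at hLG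
  have hV4 : V ^ 4 = (x : ℝ) ^ η := by rw [hVdef]; exact PTI_V4 x η hxr1
  have hV1 : 1 ≤ V := (hp1 G).trans hLG
  have hV0 : 0 < V := by linarith
  have hVV2 : V ≤ V ^ 2 := by
    rw [pow_two]
    exact le_mul_of_one_le_left hV0.le hV1
  have hV24 : V ^ 2 ≤ V ^ 4 := pow_le_pow_right₀ hV1 (by norm_num)
  have hV14 : V ≤ V ^ 4 := hVV2.trans hV24
  rw [← hV4] at hN1 hN2
  have hAr : (0 : ℝ) < A := lt_of_lt_of_le (Real.rpow_pos_of_pos hx0 _) hA1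
  have hA0 : 1 ≤ A := by
    have : 0 < A := by exact_mod_cast hAr
    omega
  have hAxr : (A : ℝ) ≤ x := by exact_mod_cast hAx
  have hNr : (0 : ℝ) < N := by
    by_contra hc
    have h0 : (N : ℝ) = 0 := le_antisymm (not_lt.mp hc) (Nat.cast_nonneg _)
    rw [h0, mul_zero] at hN1
    have : 0 < (x : ℝ) ^ 2 * V ^ 4 := by positivity
    linarith
  have hN : 1 ≤ N := by
    have : 0 < N := by exact_mod_cast hNr
    omega
  have hNr1 : (1 : ℝ) ≤ N := by exact_mod_cast hN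
  have hR : 1 ≤ R := by
    by_contra hc
    have h0 : R = 0 := by omega
    rw [h0] at hR1
    have : 0 < x ^ 2 := by positivity
    simp at hR1
    omega
  -- the square root of N
  obtain ⟨s, hs⟩ : ∃ s : ℝ, s = √(N : ℝ) := ⟨_, rfl⟩
  have hs0 : 0 < s := by rw [hs]; exact Real.sqrt_pos.2 hNr
  have hss : s * s = N := by rw [hs]; exact Real.mul_self_sqrt hNr.le
  have hs1 : 1 ≤ s := by
    rw [hs]
    exact Real.one_le_sqrt.mpr hNr1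
  have hsA : (x : ℝ) * V ^ 2 ≤ A * s := by
    have h1 : ((x : ℝ) * V ^ 2) ^ 2 ≤ (A * s) ^ 2 := by
      calc ((x : ℝ) * V ^ 2) ^ 2 = (x : ℝ) ^ 2 * V ^ 4 := by ring
        _ ≤ (A : ℝ) ^ 2 * N := hN1
        _ = (A * s) ^ 2 := by rw [← hss]; ring
    exact le_of_sq_le_sq h1 (by positivity)
  have hsV : s * V ^ 2 ≤ A := by
    have h1 : (s * V ^ 2) ^ 2 ≤ (A : ℝ) ^ 2 := by
      calc (s * V ^ 2) ^ 2 = (s * s) * V ^ 4 := by ring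
        _ = N * V ^ 4 := by rw [hss]
        _ ≤ (A : ℝ) ^ 2 := hN2
    exact le_of_sq_le_sq h1 hAr.le
  have ha : (x : ℝ) * V ≤ A * s := (mul_le_mul_of_nonneg_left hVV2 hx0.le).trans hsA
  have hb : s * V ≤ A := (mul_le_mul_of_nonneg_left hVV2 hs0.le).trans hsV
  have hNA : (x : ℝ) ≤ N * A := by
    calc (x : ℝ) = x * 1 := (mul_one _).symm
      _ ≤ x * V := mul_le_mul_of_nonneg_left hV1 hx0.le
      _ ≤ A * s := ha
      _ ≤ A * (s * s) := mul_le_mul_of_nonneg_left (le_mul_of_one_le_left hs0.le hs1) hAr.le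
      _ = N * A := by rw [hss]; ring
  have hNA2 : (N : ℝ) ≤ (A : ℝ) ^ 2 := by
    calc (N : ℝ) = N * 1 := (mul_one _).symm
      _ ≤ N * V ^ 4 := mul_le_mul_of_nonneg_left (hV1.trans hV14) hNr.le
      _ ≤ (A : ℝ) ^ 2 := hN2
  have hxA2N : (x : ℝ) ^ 2 ≤ (A : ℝ) ^ 2 * N := by
    calc (x : ℝ) ^ 2 = (x : ℝ) ^ 2 * 1 := (mul_one _).symm
      _ ≤ (x : ℝ) ^ 2 * V ^ 4 := mul_le_mul_of_nonneg_left (hV1.trans hV14) (by positivity)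
      _ ≤ (A : ℝ) ^ 2 * N := hN1
  have hNV : (N : ℝ) * V ^ 2 ≤ (A : ℝ) ^ 2 := (mul_le_mul_of_nonneg_left hV24 hNr.le).trans hN2
  have hc : (x : ℝ) ^ 2 * V ^ 12 ≤ (A : ℝ) ^ 3 := by
    have h1 := PTI_c x A η hxr1 hA1
    rw [← hV4] at h1
    calc (x : ℝ) ^ 2 * V ^ 12 = (x : ℝ) ^ 2 * (V ^ 4) ^ 3 := by ring
      _ ≤ (A : ℝ) ^ 3 := h1
  have hxV : (x : ℝ) * V ≤ (A : ℝ) ^ 2 := by
    have h1 : (x : ℝ) * (x * V) ≤ x * (A : ℝ) ^ 2 := by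
      calc (x : ℝ) * (x * V) = (x : ℝ) ^ 2 * V ^ 1 := by ring
        _ ≤ (x : ℝ) ^ 2 * V ^ 12 := mul_le_mul_of_nonneg_left (pow_le_pow_right₀ hV1 (by norm_num)) (by positivity)
        _ ≤ (A : ℝ) ^ 3 := hc
        _ = A * (A : ℝ) ^ 2 := by ring
        _ ≤ x * (A : ℝ) ^ 2 := mul_le_mul_of_nonneg_right hAxr (by positivity)
    exact le_of_mul_le_mul_left h1 hx0
  -- parameters
  have hK₁1 : (1 : ℝ) ≤ K₁ := (hp1 _).trans hK₁a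
  have hK₁n : 1 ≤ K₁ := by exact_mod_cast hK₁1
  have hK₁0 : (0 : ℝ) < K₁ := by linarith
  have hR₀1 : (1 : ℝ) ≤ R₀ := (hp1 _).trans hR₀a
  have hR₀n : 1 ≤ R₀ := by exact_mod_cast hR₀1
  have hR₀0 : (0 : ℝ) < R₀ := by linarith
  obtain ⟨K₃, hK₃⟩ : ∃ K₃ : ℕ, K₃ = ⌈L ^ c₃⌉₊ := ⟨_, rfl⟩
  have hK₃a : L ^ c₃ ≤ K₃ := by rw [hK₃]; exact Nat.le_ceil _
  have hK₃b : (K₃ : ℝ) ≤ 2 * L ^ c₃ := by
    have h1 := (Nat.ceil_lt_add_one (show 0 ≤ L ^ c₃ by positivity)).le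
    have h2 := hp1 c₃
    rw [hK₃]
    linarith
  have hK₃2r : (2 : ℝ) ≤ K₃ := by
    refine le_trans ?_ hK₃a
    calc (2 : ℝ) ≤ L := hL2
      _ = L ^ 1 := (pow_one L).symm
      _ ≤ L ^ c₃ := hpow _ _ (by omega)
  have hK₃2 : 2 ≤ K₃ := by exact_mod_cast hK₃2r
  have hK₃0 : (0 : ℝ) < K₃ := by linarith
  obtain ⟨K₄, hK₄⟩ : ∃ K₄ : ℕ, K₄ = ⌈160 * (K₁ : ℝ) * (x : ℝ) ^ 2 / (A : ℝ) ^ 2⌉₊ := ⟨_, rfl⟩
  have hK₄a : 160 * (K₁ : ℝ) * (x : ℝ) ^ 2 ≤ K₄ * (A : ℝ) ^ 2 := by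
    have h1 : 160 * (K₁ : ℝ) * (x : ℝ) ^ 2 / (A : ℝ) ^ 2 ≤ K₄ := by rw [hK₄]; exact Nat.le_ceil _
    rwa [div_le_iff₀ (by positivity)] at h1
  have hK₄b : (K₄ : ℝ) * (A : ℝ) ^ 2 ≤ 161 * K₁ * (x : ℝ) ^ 2 := by
    have h1 := (Nat.ceil_lt_add_one (show 0 ≤ 160 * (K₁ : ℝ) * (x : ℝ) ^ 2 / (A : ℝ) ^ 2 by positivity)).le
    rw [← hK₄] at h1
    have h2 : (K₄ : ℝ) * (A : ℝ) ^ 2 ≤ (160 * (K₁ : ℝ) * (x : ℝ) ^ 2 / (A : ℝ) ^ 2 + 1) * (A : ℝ) ^ 2 :=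
      mul_le_mul_of_nonneg_right h1 (by positivity)
    have h3 : (160 * (K₁ : ℝ) * (x : ℝ) ^ 2 / (A : ℝ) ^ 2 + 1) * (A : ℝ) ^ 2 = 160 * (K₁ : ℝ) * (x : ℝ) ^ 2 + (A : ℝ) ^ 2 := by
      field_simp
    rw [h3] at h2
    have h4 : (A : ℝ) ^ 2 ≤ (x : ℝ) ^ 2 := pow_le_pow_left₀ hAr.le hAxr 2
    have h6 : (x : ℝ) ^ 2 ≤ K₁ * (x : ℝ) ^ 2 := by
      have := mul_le_mul_of_nonneg_right hK₁1 (show 0 ≤ (x : ℝ) ^ 2 by positivity)
      linarith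
    linarith
  have hK₄0 : (0 : ℝ) < K₄ := by
    by_contra hcon
    have h0 : (K₄ : ℝ) = 0 := le_antisymm (not_lt.mp hcon) (Nat.cast_nonneg _)
    rw [h0, zero_mul] at hK₄a
    have : 0 < 160 * (K₁ : ℝ) * (x : ℝ) ^ 2 := by positivity
    linarith
  have hK₄1 : 1 ≤ K₄ := by
    have : 0 < K₄ := by exact_mod_cast hK₄0
    omega
  obtain ⟨K, hK⟩ : ∃ K : ℝ, K = (K₃ : ℝ) * K₄ := ⟨_, rfl⟩
  have hK0 : 0 < K := by rw [hK]; positivity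
  have hKa : (x : ℝ) ^ 2 ≤ K * (A : ℝ) ^ 2 := by
    have h1 : (x : ℝ) ^ 2 ≤ 160 * (K₁ : ℝ) * (x : ℝ) ^ 2 := by
      have h2 := mul_le_mul_of_nonneg_right hK₁1 (show 0 ≤ (x : ℝ) ^ 2 by positivity)
      have h3 : 0 < (x : ℝ) ^ 2 := by positivity
      linarith
    calc (x : ℝ) ^ 2 = 1 * (x : ℝ) ^ 2 := (one_mul _).symm
      _ ≤ K₃ * (K₄ * (A : ℝ) ^ 2) := mul_le_mul (by linarith) (h1.trans hK₄a) (by positivity) hK₃0.le
      _ = K * (A : ℝ) ^ 2 := by rw [hK]; ring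
  obtain ⟨Q, hQ⟩ : ∃ Q : ℝ, Q = L ^ (c₃ + E₀) := ⟨_, rfl⟩
  have hQ1 : 1 ≤ Q := by rw [hQ]; exact hp1 _
  have hQ0 : 0 < Q := by linarith
  have hKb : K * (A : ℝ) ^ 2 ≤ 322 * Q * (x : ℝ) ^ 2 := by
    calc K * (A : ℝ) ^ 2 = K₃ * (K₄ * (A : ℝ) ^ 2) := by rw [hK]; ring
      _ ≤ (2 * L ^ c₃) * (161 * K₁ * (x : ℝ) ^ 2) := mul_le_mul hK₃b hK₄b (by positivity) (by positivity)
      _ = 322 * (L ^ c₃ * K₁) * (x : ℝ) ^ 2 := by ring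
      _ ≤ 322 * (L ^ c₃ * L ^ E₀) * (x : ℝ) ^ 2 := by
          refine mul_le_mul_of_nonneg_right ?_ (by positivity)
          refine mul_le_mul_of_nonneg_left ?_ (by norm_num)
          exact mul_le_mul_of_nonneg_left hK₁b (by positivity)
      _ = 322 * Q * (x : ℝ) ^ 2 := by rw [hQ]; ring
  have hKb' : K * (A : ℝ) ^ 2 ≤ 644 * Q ^ 2 * (x : ℝ) ^ 2 := by
    refine hKb.trans (mul_le_mul_of_nonneg_right ?_ (by positivity))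
    have h1 : Q ≤ Q ^ 2 := by
      rw [pow_two]
      exact le_mul_of_one_le_left hQ0.le hQ1
    linarith
  have hcK : 322 * Q ≤ (x : ℝ) ^ η := by
    rw [← hV4]
    calc 322 * Q ≤ L ^ 10 * Q := by
          refine mul_le_mul_of_nonneg_right ?_ hQ0.le
          calc (322 : ℝ) ≤ 2 ^ 10 := by norm_num
            _ ≤ L ^ 10 := pow_le_pow_left₀ (by norm_num) hL2 10
      _ = L ^ (10 + (c₃ + E₀)) := by rw [hQ]; ring
      _ ≤ L ^ G := hpow _ _ (by omega)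
      _ ≤ V := hLG
      _ ≤ V ^ 4 := hV14
  have hKcast : ((K₃ * K₄ : ℕ) : ℝ) = K := by rw [hK]; push_cast; ring
  have hKle : ((K₃ * K₄ : ℕ) : ℝ) ≤ (x : ℝ) ^ (2 / 3 - η) := by
    rw [hKcast]
    exact PTI_d x A K (322 * Q) η hxr1 hK0.le hA1 hKb hcK
  have hKx : K₃ * K₄ ≤ x := by
    have h1 : ((K₃ * K₄ : ℕ) : ℝ) ≤ x := by
      refine hKle.trans ?_
      calc (x : ℝ) ^ (2 / 3 - η) ≤ (x : ℝ) ^ (1 : ℝ) := Real.rpow_le_rpow_of_exponent_le hxr1 (by linarith)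
        _ = x := Real.rpow_one _
    exact_mod_cast h1
  obtain ⟨R₁, hR₁⟩ : ∃ R₁ : ℕ, R₁ = ⌈(x : ℝ) * V ^ 2 / A⌉₊ := ⟨_, rfl⟩
  have hR₁a : (x : ℝ) * V ^ 2 / A ≤ R₁ := by rw [hR₁]; exact Nat.le_ceil _
  have hR₁c : V ^ 2 ≤ (x : ℝ) * V ^ 2 / A := by
    rw [le_div_iff₀ hAr]
    calc V ^ 2 * (A : ℝ) ≤ V ^ 2 * x := mul_le_mul_of_nonneg_left hAxr (by positivity)
      _ = x * V ^ 2 := mul_comm _ _
  have hR₁b : (R₁ : ℝ) ≤ 2 * ((x : ℝ) * V ^ 2 / A) := by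
    have h1 := (Nat.ceil_lt_add_one (show 0 ≤ (x : ℝ) * V ^ 2 / A by positivity)).le
    have h2 : 1 ≤ V ^ 2 := hV1.trans hVV2
    rw [hR₁]
    linarith
  have hR₀R₁ : R₀ ≤ R₁ := by
    have h1 : (R₀ : ℝ) ≤ R₁ := by
      calc (R₀ : ℝ) ≤ L ^ E₀ := hR₀b
        _ ≤ L ^ G := hpow _ _ (by omega)
        _ ≤ V := hLG
        _ ≤ V ^ 2 := hVV2
        _ ≤ _ := hR₁c
        _ ≤ R₁ := hR₁a
    exact_mod_cast h1
  -- D₁
  obtain ⟨D₁, hD₁⟩ : ∃ D₁ : ℕ, D₁ = 2 * N * A / x := ⟨_, rfl⟩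
  have hNAn : x ≤ N * A := by exact_mod_cast hNA
  have hD1 : 1 ≤ D₁ := by
    rw [hD₁]
    refine Nat.div_pos ?_ (by omega)
    calc x ≤ N * A := hNAn
      _ ≤ 2 * (N * A) := Nat.le_mul_of_pos_left _ (by norm_num)
      _ = 2 * N * A := by ring
  have hNA2n : N ≤ A ^ 2 := by exact_mod_cast hNA2
  have hDx : D₁ ≤ x ^ 3 := by
    rw [hD₁]
    refine Nat.div_le_of_le_mul ?_
    have h1 : N ≤ x ^ 2 := hNA2n.trans (Nat.pow_le_pow_left hAx 2)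
    calc 2 * N * A ≤ 2 * x ^ 2 * x := Nat.mul_le_mul (Nat.mul_le_mul_left 2 h1) hAx
      _ ≤ x * x ^ 2 * x := Nat.mul_le_mul_right _ (Nat.mul_le_mul_right _ hx2)
      _ = x * x ^ 3 := by ring
  have hDr : (D₁ : ℝ) ≤ 2 * N * A / x := by
    have h1 : ((2 * N * A / x : ℕ) : ℝ) ≤ ((2 * N * A : ℕ) : ℝ) / (x : ℕ) := Nat.cast_div_le
    rw [hD₁]
    refine h1.trans (le_of_eq ?_)
    push_cast
    ring
  have hlD : 1 + Real.log D₁ ≤ 4 * L := by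
    have h1 : Real.log D₁ ≤ Real.log ((x : ℝ) ^ 3) := by
      refine Real.log_le_log (by exact_mod_cast hD1) ?_
      exact_mod_cast hDx
    rw [Real.log_pow] at h1
    push_cast at h1
    rw [← hL] at h1
    linarith
  have hlD0 : 0 ≤ 1 + Real.log D₁ := by
    have : 0 ≤ Real.log D₁ := Real.log_nonneg (by exact_mod_cast hD1)
    linarith
  -- the decomposition
  have hSiz : Siz x N R A := by
    refine ⟨hx1, hN, hR, hA0, hAx, hR1, hR2.trans (Nat.mul_le_mul_right _ (by norm_num)), ?_, hNA2n⟩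
    exact_mod_cast hxA2N
  have hZ2 : 2 ≤ Z := by
    have h1 : (2 : ℝ) ≤ Z := by
      refine le_trans ?_ hZ
      refine hL2.trans ?_
      calc L = L ^ 1 := (pow_one L).symm
        _ ≤ L ^ E := hpow _ _ (by omega)
    exact_mod_cast h1
  have hK₄n : 160 * K₁ * x ^ 2 ≤ K₄ * A ^ 2 := by exact_mod_cast hK₄a
  have hmain := hD om hom x Z N R A K₁ K₃ K₄ R₀ R₁ hSiz hZ2 hK₁n hK₃2 hK₄1 hR₀n hR₀R₁ hK₄n hKx hNAn (2 * L) (3 * L)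
    lam β hlam hβ
  rw [← hD₁] at hmain
  rw [show (K₃ : ℝ) * K₄ = K from hK.symm, ← hL] at hmain
  refine hmain.trans ?_
  have hP0 : 0 < L ^ (B + 30) := by positivity
  have hK₃P : L ^ (B + 30) ≤ K₃ := (hpow _ _ (by omega)).trans hK₃a
  have q1 := PTI_p1 N A x s L (L ^ (B + 30)) V K₁ K₃ Z (L ^ E) hNr hAr hx0 hL1 hP0 hV0 (by positivity) hs1 hss ha hb hK₁a hK₃P hZ
  rw [hs] at q1
  have q2 := PTI_p2 N A x L V K₃ R₀ (1 + Real.log D₁) (L ^ c₃) (L ^ E₀) hNr hAr hx0 hL1 hV0 (by positivity) hK₃a hR₀0.le hR₀b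
    hlD hlD0 hxV
  have q3 := PTI_p4 N A x L V Q K R₀ R₁ (1 + Real.log D₁) (L ^ (B + 30)) hNr hAr hx0 hL1 hQ1 hV1 hP0 hK0 hKa hKb hR₀a
    (Nat.cast_nonneg _) hR₁b hlD hc
  have hK₃Q : (K₃ : ℝ) ≤ 2 * Q := by
    refine hK₃b.trans (mul_le_mul_of_nonneg_left ?_ (by norm_num))
    rw [hQ]
    exact hpow _ _ (by omega)
  have q4 := PTI_p3 N A x L Q V K K₃ R₁ (1 + Real.log D₁) D₁ 1 hNr hAr hx0 hL1 hQ1 hV1 hK0 hK₃0 one_pos hKa hKb' hK₃Q hR₁a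
    hlD hlD0 hNA hDr (Nat.cast_nonneg _) hNV
  rw [one_mul] at q4
  have hT0 : (0 : ℝ) < N * A ^ 2 := by positivity
  have hend := PTI_end L (L ^ (B + 30)) (L ^ c₃) Q Q V (N * A ^ 2) (L ^ E) (L ^ E₀) C (1 / L ^ (B + 1)) B c₃ E₀ E G hc₃ hE hG'
    hL1 rfl rfl hQ hQ rfl rfl hLG hT0 hC rfl
  refine le_trans (mul_le_mul_of_nonneg_left ?_ (by positivity)) (hend.trans ?_)
  · exact add_le_add (add_le_add (add_le_add (mul_le_mul_of_nonneg_left q1 (by positivity)) q2) q3) q4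
  · have g5 : C * 144648 * (1 / L ^ (B + 1)) ≤ 1 / L ^ B := by
      rw [mul_one_div, div_le_div_iff₀ (by positivity) (by positivity), one_mul, pow_succ]
      have h1 : 0 < L ^ B := by positivity
      calc C * 144648 * L ^ B ≤ L * L ^ B := mul_le_mul_of_nonneg_right hLQ h1.le
        _ = L ^ B * L := mul_comm _ _
    calc C * 144648 * (1 / L ^ (B + 1)) * (N * A ^ 2) ≤ 1 / L ^ B * (N * A ^ 2) := mul_le_mul_of_nonneg_right g5 hT0.le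
      _ = N * A ^ 2 / L ^ B := by ring

end Pool.Agent.EU
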